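import Pool.Agent.H85.AU.Targets

/-!
# MP_c9ef16_gt: goodness is local in `A`
-/

open CategoryTheory CategoryTheory.Limits TopologicalSpace Topology Set

universe w

namespace Pool.Agent.H62.AU

open Pool.Agent.H85.AU

/-- finiteness of the range of the restriction is invariant under `A_V ≅ A'_V` -/
theorem range_iso {X : Type} [TopologicalSpace X] {C : Type 1} [Category.{0} C] [Abelian C]
    [HasExt.{w} C] (c : CutSys X C) {A A' : C} (B : C) (n : ℕ) {W V : Opens X} (h : W ≤ V)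
    (e : c.ob V A ≅ c.ob V A') (hf : (range (CutSys.rs.{w} c A' B n h)).Finite) :
    (range (CutSys.rs.{w} c A B n h)).Finite := by
  refine (hf.image (fun β => (Abelian.Ext.mk₀ (c.rsm h e.hom)).comp β (zero_add n))).subset ?_
  rintro _ ⟨α, rfl⟩
  refine ⟨CutSys.rs.{w} c A' B n h ((c.isoExt e B n).symm α), ⟨_, rfl⟩, ?_⟩
  have h1 := c.rs_rsm B n h e.hom ((c.isoExt e B n).symm α)
  show (Abelian.Ext.mk₀ (c.rsm h e.hom)).comp
    (CutSys.rs.{w} c A' B n h ((c.isoExt e B n).symm α)) (zero_add n) = _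
  rw [← h1]
  exact congrArg _ ((c.isoExt e B n).apply_symm_apply α)

theorem pf_GLC : T_GLC.{w} := by
  intro X _ C _ _ _ c A A' B x U hx ⟨e⟩ hg n V hxV
  obtain ⟨W, hxW, hW, hf⟩ := hg n (V ⊓ U) ⟨hxV, hx⟩
  refine ⟨W, hxW, hW.trans inf_le_left, ?_⟩
  have h1 := range_iso c B n hW (c.rsi (inf_le_right : V ⊓ U ≤ U) e) hf
  exact c.rs_finite_mono A B n (le_refl W) hW inf_le_left h1

end Pool.Agent.H62.AU
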