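import Pool.Agent.H85.AU.Targets

/-!
# MP_c9ef16_gt: gluing of isomorphisms
-/

open CategoryTheory CategoryTheory.Limits TopologicalSpace Topology Set

universe w

namespace Pool.Agent.H62.AU

open Pool.Agent.H85.AU

/-- the third terms of two short exact sequences with isomorphic first arrows are isomorphic -/
theorem third_iso {C : Type 1} [Category.{0} C] [Abelian C] {S S' : ShortComplex C}
    (hS : S.ShortExact) (hS' : S'.ShortExact) (e₁ : S.X₁ ≅ S'.X₁) (e₂ : S.X₂ ≅ S'.X₂)
    (h : S.f ≫ e₂.hom = e₁.hom ≫ S'.f) : Nonempty (S.X₃ ≅ S'.X₃) :=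
  ⟨hS.gIsCokernel.coconePointUniqueUpToIso (cokernelIsCokernel S.f) ≪≫
    cokernel.mapIso S.f S'.f e₁ e₂ h ≪≫
    (cokernelIsCokernel S'.f).coconePointUniqueUpToIso hS'.gIsCokernel⟩

theorem mvF_eq {X : Type} [TopologicalSpace X] {C : Type 1} [Category.{0} C] [Abelian C]
    (c : CutSys X C) (U V : Opens X) (A : C) :
    mvF c.cut U V A = biprod.lift (c.mp inf_le_left A) (-(c.mp inf_le_right A)) := rfl

theorem pf_GLU : T_GLU := by
  intro X _ C _ _ c A A' W₁ W₂ a b hab
  refine third_iso (c.mv W₁ W₂ A) (c.mv W₁ W₂ A') (c.rsi inf_le_left a) (biprod.mapIso a b) ?_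
  show biprod.lift (c.mp inf_le_left A) (-(c.mp inf_le_right A)) ≫ biprod.map a.hom b.hom =
    c.rsm inf_le_left a.hom ≫ biprod.lift (c.mp inf_le_left A') (-(c.mp inf_le_right A'))
  apply biprod.hom_ext
  · rw [Category.assoc, Category.assoc, biprod.map_fst, biprod.lift_fst, biprod.lift_fst_assoc,
      c.rsm_mp]
  · rw [Category.assoc, Category.assoc, biprod.map_snd, biprod.lift_snd, biprod.lift_snd_assoc,
      Preadditive.neg_comp, Preadditive.comp_neg, hab, c.rsm_mp]

end Pool.Agent.H62.AU
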