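import Pool.Agent.H85.AU.Targets

/-!
# MP_c9ef16_gt: the graded pieces are concentrated on the strata
-/

open CategoryTheory CategoryTheory.Limits TopologicalSpace Topology Set

universe w

namespace Pool.Agent.H62.AU

open Pool.Agent.H85.AU

variable {X : Type} [TopologicalSpace X] {C : Type 1} [Category.{0} C] [Abelian C]

theorem isIso_ep_of_eq (c : CutSys X C) (U : Opens X) (A : C) : ∀ W : Opens X, W = U →
    IsIso (c.ep W (c.ob U A)) := by
  rintro W rfl
  exact c.isIso_ep_ob W A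

/-- `(A_U)_V → A_U` is an isomorphism for `U ⊆ V` -/
theorem isIso_ep_le (c : CutSys X C) {U V : Opens X} (h : U ≤ V) (A : C) :
    IsIso (c.ep V (c.ob U A)) := by
  have h1 := c.isIso_mp_inf V U A
  have h2 : IsIso (c.mp (inf_le_left : V ⊓ U ≤ V) (c.ob U A) ≫ c.ep V (c.ob U A)) := by
    rw [c.mp_ep]
    exact isIso_ep_of_eq c U A _ (inf_eq_right.2 h)
  exact IsIso.of_isIso_comp_left (c.mp (inf_le_left : V ⊓ U ≤ V) (c.ob U A)) _

/-- `ep_P` of the quotient `A_P / A_{P'}` is an isomorphism -/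
theorem isIso_ep_coker (c : CutSys X C) {P' P : Opens X} (h : P' ≤ P) (A : C) :
    IsIso (c.ep P (cokernel (c.mp h A))) := by
  have h1 := c.isIso_ep_ob P A
  have h2 := c.fm_ep P (cokernel.π (c.mp h A))
  have h3 : Epi (c.fm P (cokernel.π (c.mp h A)) ≫ c.ep P (cokernel (c.mp h A))) := by
    rw [h2]
    infer_instance
  have h4 : Epi (c.ep P (cokernel (c.mp h A))) :=
    epi_of_epi (c.fm P (cokernel.π (c.mp h A))) _
  have h5 : Mono (c.ep P (cokernel (c.mp h A))) := c.mono_ep P _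
  exact isIso_of_mono_of_epi _

/-- `(A_P / A_{P'})_{P'} = 0` -/
theorem isZero_ob_coker (c : CutSys X C) {P' P : Opens X} (h : P' ≤ P) (A : C) :
    IsZero (c.ob P' (cokernel (c.mp h A))) := by
  have hcol := c.colim P'
  have hadd := c.add P'
  have h1 := c.isIso_fm_ep h A
  have h2 := c.isIso_fm_ep (le_refl P') A
  have h3 : IsIso (c.fm P' (c.mp h A) ≫ c.fm P' (c.ep P A)) := by
    rw [← c.fm_comp, c.mp_ep]
    exact h2
  have h4 : IsIso (c.fm P' (c.mp h A)) :=
    IsIso.of_isIso_comp_right (c.fm P' (c.mp h A)) (c.fm P' (c.ep P A))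
  have h5 : c.fm P' (c.mp h A) ≫ c.fm P' (cokernel.π (c.mp h A)) = 0 := by
    rw [← c.fm_comp, cokernel.condition]
    exact (c.cut.obj P').map_zero _ _
  have h6 : c.fm P' (cokernel.π (c.mp h A)) = 0 := by
    rw [← cancel_epi (c.fm P' (c.mp h A)), h5, comp_zero]
  have h7 : Epi (c.fm P' (cokernel.π (c.mp h A))) :=
    inferInstanceAs (Epi ((c.cut.obj P').map (cokernel.π (c.mp h A))))
  rw [IsZero.iff_id_eq_zero, ← cancel_epi (c.fm P' (cokernel.π (c.mp h A))), h6, zero_comp,
    zero_comp]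

theorem pf_GRC : T_GRC := by
  intro X _ C _ _ c Z hZ hm j A
  refine ⟨⟨isIso_ep_coker c (co_anti hZ hm (Nat.le_succ j)) A,
    isZero_ob_coker c (co_anti hZ hm (Nat.le_succ j)) A⟩,
    ShortComplex.mk (c.mp (co_anti hZ hm (Nat.le_succ j)) A)
      (cokernel.π (c.mp (co_anti hZ hm (Nat.le_succ j)) A)) (cokernel.condition _),
    ?_, rfl, rfl, rfl⟩
  exact
    { exact := ShortComplex.exact_of_g_is_cokernel _
        (cokernelIsCokernel (c.mp (co_anti hZ hm (Nat.le_succ j)) A))
      mono_f := c.mono_mp _ A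
      epi_g := coequalizer.π_epi }

end Pool.Agent.H62.AU
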